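import Mathlib

/-!
# Erdős–Pósa properties of labelled complete graphs: definitions and local lemmas

Helper file for MP_45fa85_co.
-/

namespace Pool.Agent.Helper46.FG

open Finset

/-- `F` is the edge set of a cycle of `G`: there are `n ≥ 3` and pairwise distinct vertices
`c 0, …, c (n - 1)` (indexed by the integers modulo `n`) such that `c i` and `c (i + 1)` are
adjacent for all `i`, and `F` consists of the edges `c i c (i + 1)`. -/
def IsCyc {V : Type*} (G : SimpleGraph V) (F : Finset (Sym2 V)) : Prop :=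
  ∃ n : ℕ, 3 ≤ n ∧ ∃ c : ZMod n → V, Function.Injective c ∧ (∀ i, G.Adj (c i) (c (i + 1))) ∧
    ∀ e, e ∈ F ↔ ∃ i, e = s(c i, c (i + 1))

/-- The vertex `v` lies on the cycle with edge set `F`. -/
def On {V : Type*} (v : V) (F : Finset (Sym2 V)) : Prop := ∃ e ∈ F, v ∈ e

/-- The `γ`-value of the cycle with edge set `F`. -/
def val {V Γ : Type*} [AddCommGroup Γ] (γ : Sym2 V → Γ) (F : Finset (Sym2 V)) : Γ := ∑ e ∈ F, γ e

/-- The Erdős–Pósa property `EP_s` of `(Γ, A)`, required only for the `Γ`-labellings of the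
graphs in the class `𝒢`. -/
def EP (𝒢 : (V : Type) → SimpleGraph V → Prop) (Γ : Type) [AddCommGroup Γ] (A : Set Γ) (s : ℕ) :
    Prop :=
  ∃ f : ℕ → ℕ, ∀ (V : Type) (_ : Finite V) (G : SimpleGraph V), 𝒢 V G →
    ∀ (γ : Sym2 V → Γ) (k : ℕ), 1 ≤ k →
      (∃ P : Finset (Finset (Sym2 V)), P.card = k ∧ (∀ F ∈ P, IsCyc G F ∧ val γ F ∈ A) ∧
        ∀ v : V, {F | F ∈ P ∧ On v F}.ncard ≤ s - 1) ∨
      (∃ H : Finset V, H.card ≤ f k ∧ ∀ F, IsCyc G F → val γ F ∈ A → ∃ v ∈ H, On v F)

section Cycles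

variable {V : Type*} {Γ : Type*} [AddCommGroup Γ]

theorem zmod_two_ne {n : ℕ} (hn : 3 ≤ n) : (2 : ZMod n) ≠ 0 := by
  intro h
  have h1 : ((2 : ℕ) : ZMod n) = 0 := by exact_mod_cast h
  rw [ZMod.natCast_eq_zero_iff] at h1
  have := Nat.le_of_dvd (by norm_num) h1
  omega

theorem zmod_one_ne {n : ℕ} (hn : 3 ≤ n) : (1 : ZMod n) ≠ 0 := by
  intro h
  have h1 : ((1 : ℕ) : ZMod n) = 0 := by exact_mod_cast h
  rw [ZMod.natCast_eq_zero_iff] at h1
  have := Nat.le_of_dvd (by norm_num) h1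
  omega

theorem edge_inj {n : ℕ} (hn : 3 ≤ n) {c : ZMod n → V} (hc : Function.Injective c) :
    Function.Injective (fun i => s(c i, c (i + 1))) := by
  intro i j hij
  simp only [Sym2.eq_iff] at hij
  rcases hij with ⟨h1, _⟩ | ⟨h1, h2⟩
  · exact hc h1
  · have h3 := hc h1
    have h4 := hc h2
    exfalso
    apply zmod_two_ne hn
    have : i + 1 = j := h4
    rw [← this] at h3
    linear_combination -h3

theorem sum_cyc {n : ℕ} (hn : 3 ≤ n) {c : ZMod n → V} (hc : Function.Injective c)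
    {F : Finset (Sym2 V)} (hF : ∀ e, e ∈ F ↔ ∃ i, e = s(c i, c (i + 1))) (g : Sym2 V → Γ)
    [Fintype (ZMod n)] :
    ∑ e ∈ F, g e = ∑ i : ZMod n, g s(c i, c (i + 1)) := by
  classical
  have h1 : F = Finset.univ.image (fun i : ZMod n => s(c i, c (i + 1))) := by
    ext e
    rw [hF, Finset.mem_image]
    constructor
    · rintro ⟨i, rfl⟩
      exact ⟨i, Finset.mem_univ _, rfl⟩
    · rintro ⟨i, _, rfl⟩
      exact ⟨i, rfl⟩
  rw [h1, Finset.sum_image]
  intro i _ j _ hij
  exact edge_inj hn hc hij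

theorem on_cyc {n : ℕ} {c : ZMod n → V} {F : Finset (Sym2 V)}
    (hF : ∀ e, e ∈ F ↔ ∃ i, e = s(c i, c (i + 1))) (v : V) : On v F ↔ ∃ i, v = c i := by
  constructor
  · rintro ⟨e, he, hv⟩
    obtain ⟨i, rfl⟩ := (hF e).1 he
    rcases Sym2.mem_iff.1 hv with rfl | rfl
    · exact ⟨i, rfl⟩
    · exact ⟨i + 1, rfl⟩
  · rintro ⟨i, rfl⟩
    exact ⟨s(c i, c (i + 1)), (hF _).2 ⟨i, rfl⟩, Sym2.mem_mk_left _ _⟩

/-- In a cycle each vertex on it is on exactly two edges. -/
theorem sum_star {n : ℕ} (hn : 3 ≤ n) {c : ZMod n → V} (hc : Function.Injective c)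
    [Fintype (ZMod n)] [DecidableEq V] (j : ZMod n) :
    ∑ i : ZMod n, (if c j ∈ s(c i, c (i + 1)) then (1 : ℤ) else 0) = 2 := by
  classical
  have h1 : ∀ i : ZMod n, (if c j ∈ s(c i, c (i + 1)) then (1 : ℤ) else 0) =
      (if i = j then 1 else 0) + (if i = j - 1 then 1 else 0) := by
    intro i
    have h2 : c j ∈ s(c i, c (i + 1)) ↔ i = j ∨ i = j - 1 := by
      rw [Sym2.mem_iff]
      constructor
      · rintro (h | h)
        · exact Or.inl (hc h).symm
        · right
          have := hc h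
          rw [this]; ring
      · rintro (h | h)
        · left; rw [h]
        · right; rw [h]; congr 1; ring
    by_cases h3 : i = j
    · have h4 : i ≠ j - 1 := by
        intro h5
        apply zmod_one_ne hn
        rw [h3] at h5
        linear_combination h5
      rw [if_pos (h2.2 (Or.inl h3)), if_pos h3, if_neg h4]
      rfl
    · by_cases h4 : i = j - 1
      · rw [if_pos (h2.2 (Or.inr h4)), if_neg h3, if_pos h4]
        rfl
      · rw [if_neg (fun h => (h2.1 h).elim h3 h4), if_neg h3, if_neg h4]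
        rfl
  rw [Finset.sum_congr rfl (fun i _ => h1 i), Finset.sum_add_distrib]
  simp

theorem sum_star_zero {n : ℕ} {c : ZMod n → V} [Fintype (ZMod n)] [DecidableEq V] {a : V}
    (ha : ∀ i, a ≠ c i) :
    ∑ i : ZMod n, (if a ∈ s(c i, c (i + 1)) then (1 : ℤ) else 0) = 0 := by
  apply Finset.sum_eq_zero
  intro i _
  rw [if_neg]
  rw [Sym2.mem_iff]
  rintro (h | h)
  · exact ha _ h
  · exact ha _ h

theorem isCyc_tri {a b c : V} (hab : a ≠ b) (hbc : b ≠ c) (hca : c ≠ a) [DecidableEq V] :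
    IsCyc (⊤ : SimpleGraph V) {s(a, b), s(b, c), s(c, a)} := by
  refine ⟨3, le_rfl, ![a, b, c], ?_, ?_, ?_⟩
  · intro i j hij
    fin_cases i <;> fin_cases j <;> simp_all
  · intro i
    fin_cases i
    · exact hab
    · exact hbc
    · exact hca
  · intro e
    simp only [Finset.mem_insert, Finset.mem_singleton]
    constructor
    · rintro (rfl | rfl | rfl)
      · exact ⟨0, rfl⟩
      · exact ⟨1, rfl⟩
      · exact ⟨2, rfl⟩
    · rintro ⟨i, rfl⟩
      fin_cases i
      · exact Or.inl rfl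
      · exact Or.inr (Or.inl rfl)
      · exact Or.inr (Or.inr rfl)

theorem isCyc_quad {a b c d : V} (hab : a ≠ b) (hbc : b ≠ c) (hcd : c ≠ d) (hda : d ≠ a)
    (hac : a ≠ c) (hbd : b ≠ d) [DecidableEq V] :
    IsCyc (⊤ : SimpleGraph V) {s(a, b), s(b, c), s(c, d), s(d, a)} := by
  refine ⟨4, by norm_num, ![a, b, c, d], ?_, ?_, ?_⟩
  · intro i j hij
    fin_cases i <;> fin_cases j <;> first | rfl | (exfalso; revert hij; simp; tauto)
  · intro i
    fin_cases i
    · exact hab
    · exact hbc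
    · exact hcd
    · exact hda
  · intro e
    simp only [Finset.mem_insert, Finset.mem_singleton]
    constructor
    · rintro (rfl | rfl | rfl | rfl)
      · exact ⟨0, rfl⟩
      · exact ⟨1, rfl⟩
      · exact ⟨2, rfl⟩
      · exact ⟨3, rfl⟩
    · rintro ⟨i, rfl⟩
      fin_cases i
      · exact Or.inl rfl
      · exact Or.inr (Or.inl rfl)
      · exact Or.inr (Or.inr (Or.inl rfl))
      · exact Or.inr (Or.inr (Or.inr rfl))

theorem val_tri {a b c : V} (hab : a ≠ b) (hbc : b ≠ c) (hca : c ≠ a) [DecidableEq V]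
    (γ : Sym2 V → Γ) :
    val γ {s(a, b), s(b, c), s(c, a)} = γ s(a, b) + γ s(b, c) + γ s(c, a) := by
  unfold val
  rw [Finset.sum_insert, Finset.sum_insert, Finset.sum_singleton, add_assoc]
  · simp only [Finset.mem_singleton, Sym2.eq_iff]
    tauto
  · simp only [Finset.mem_insert, Finset.mem_singleton, Sym2.eq_iff]
    tauto

theorem val_quad {a b c d : V} (hab : a ≠ b) (hbc : b ≠ c) (hcd : c ≠ d) (_hda : d ≠ a)
    (hac : a ≠ c) (hbd : b ≠ d) [DecidableEq V] (γ : Sym2 V → Γ) :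
    val γ {s(a, b), s(b, c), s(c, d), s(d, a)} =
      γ s(a, b) + γ s(b, c) + γ s(c, d) + γ s(d, a) := by
  unfold val
  rw [Finset.sum_insert, Finset.sum_insert, Finset.sum_insert, Finset.sum_singleton]
  · abel
  · simp only [Finset.mem_singleton, Sym2.eq_iff]
    tauto
  · simp only [Finset.mem_insert, Finset.mem_singleton, Sym2.eq_iff]
    tauto
  · simp only [Finset.mem_insert, Finset.mem_singleton, Sym2.eq_iff]
    tauto

end Cycles

/-! ### Functions on the edges of a complete graph with restricted short sums -/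

section Local

variable {V : Type*} [DecidableEq V]

/-- All triangle sums and all 4-cycle sums of `h` inside `Y` are `0` or `t`. -/
structure Short (Y : Finset V) (h : Sym2 V → ℤ) (t : ℤ) : Prop where
  tri : ∀ a ∈ Y, ∀ b ∈ Y, ∀ c ∈ Y, a ≠ b → b ≠ c → c ≠ a →
    h s(a, b) + h s(b, c) + h s(c, a) = 0 ∨ h s(a, b) + h s(b, c) + h s(c, a) = t
  quad : ∀ a ∈ Y, ∀ b ∈ Y, ∀ c ∈ Y, ∀ d ∈ Y, a ≠ b → b ≠ c → c ≠ d → d ≠ a → a ≠ c → b ≠ d →
    h s(a, b) + h s(b, c) + h s(c, d) + h s(d, a) = 0 ∨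
      h s(a, b) + h s(b, c) + h s(c, d) + h s(d, a) = t

variable {Y : Finset V} {h : Sym2 V → ℤ}

/-- There are two further vertices. -/
theorem exists_two (hY : 4 ≤ Y.card) (a b : V) : ∃ c ∈ Y, ∃ d ∈ Y, c ≠ d ∧ c ≠ a ∧ c ≠ b ∧
    d ≠ a ∧ d ≠ b := by
  have h1 : 1 < (Y \ {a, b}).card := by
    have h2 := Finset.le_card_sdiff ({a, b} : Finset V) Y
    have h3 : ({a, b} : Finset V).card ≤ 2 := Finset.card_le_two
    omega
  obtain ⟨c, hc, d, hd, hcd⟩ := Finset.one_lt_card.1 h1
  simp only [Finset.mem_sdiff, Finset.mem_insert, Finset.mem_singleton, not_or] at hc hd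
  exact ⟨c, hc.1, d, hd.1, hcd, hc.2.1, hc.2.2, hd.2.1, hd.2.2⟩

/-- The theta lemma. -/
theorem Short.entry (hs : Short Y h 1) (hY : 4 ≤ Y.card) {a b : V} (ha : a ∈ Y) (hb : b ∈ Y)
    (hab : a ≠ b) : h s(a, b) = 0 ∨ h s(a, b) = 1 := by
  obtain ⟨c, hc, d, hd, hcd, hca, hcb, hda, hdb⟩ := exists_two hY a b
  have h1 := hs.tri a ha b hb c hc hab hcb.symm hca
  have h2 := hs.tri a ha b hb d hd hab hdb.symm hda
  have h3 := hs.quad a ha c hc b hb d hd hca.symm hcb hdb.symm hda hab hcd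
  have e1 : h s(c, b) = h s(b, c) := by rw [Sym2.eq_swap]
  have e2 : h s(a, c) = h s(c, a) := by rw [Sym2.eq_swap]
  rw [e1, e2] at h3
  omega

/-- A function with short sums in `{0, 1}` is supported on at most one edge. -/
theorem Short.unique (hs : Short Y h 1) (hY : 4 ≤ Y.card) {a b c d : V} (ha : a ∈ Y) (hb : b ∈ Y)
    (hab : a ≠ b) (hc : c ∈ Y) (hd : d ∈ Y) (hcd : c ≠ d) (h1 : h s(a, b) ≠ 0)
    (h2 : h s(c, d) ≠ 0) : s(a, b) = s(c, d) := by
  have key : ∀ a ∈ Y, ∀ b ∈ Y, ∀ c ∈ Y, a ≠ b → b ≠ c → a ≠ c → h s(a, b) ≠ 0 →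
      h s(b, c) = 0 := by
    intro a ha b hb c hc hab hbc hac hne
    have h3 := hs.tri a ha b hb c hc hab hbc hac.symm
    have h4 := hs.entry hY ha hb hab
    have h5 := hs.entry hY hb hc hbc
    have h6 := hs.entry hY hc ha hac.symm
    omega
  by_contra hne
  rw [Sym2.eq_iff] at hne
  push Not at hne
  by_cases hbc : b = c
  · subst hbc
    by_cases hbd : b = d
    · exact hcd hbd
    by_cases had : a = d
    · exact (hne.2 had) rfl
    exact h2 (key a ha b hb d hd hab hbd had h1)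
  by_cases hbd : b = d
  · subst hbd
    by_cases hac : a = c
    · exact (hne.1 hac) rfl
    exact h2 (by rw [Sym2.eq_swap]; exact key a ha b hb c hc hab hbc hac h1)
  by_cases hac : a = c
  · subst hac
    exact h2 (key b hb a ha d hd hab.symm hcd hbd (by rw [Sym2.eq_swap]; exact h1))
  by_cases had : a = d
  · subst had
    exact h2 (by
      rw [Sym2.eq_swap]
      exact key b hb a ha c hc hab.symm hac hbc (by rw [Sym2.eq_swap]; exact h1))
  have h3 := hs.quad a ha b hb c hc d hd hab hbc hcd (Ne.symm had) hac hbd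
  have h4 := hs.entry hY ha hb hab
  have h5 := hs.entry hY hc hd hcd
  have h6 := hs.entry hY hb hc hbc
  have h7 := hs.entry hY hd ha (Ne.symm had)
  omega

/-- A nonnegative function with short sums in `{0, 2}` is zero, or supported on one edge with
value 2, or the indicator function of the edges at one vertex. -/
theorem Short.classify (hs : Short Y h 2) (hY : 4 ≤ Y.card)
    (hnn : ∀ a ∈ Y, ∀ b ∈ Y, a ≠ b → 0 ≤ h s(a, b)) :
    (∀ a ∈ Y, ∀ b ∈ Y, a ≠ b → h s(a, b) = 0) ∨
    (∃ a ∈ Y, ∃ b ∈ Y, a ≠ b ∧ h s(a, b) = 2 ∧ ∀ c ∈ Y, ∀ d ∈ Y, c ≠ d → s(c, d) ≠ s(a, b) →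
      h s(c, d) = 0) ∨
    (∃ a ∈ Y, (∀ b ∈ Y, b ≠ a → h s(a, b) = 1) ∧
      ∀ b ∈ Y, ∀ c ∈ Y, b ≠ c → b ≠ a → c ≠ a → h s(b, c) = 0) := by
  by_cases hz : ∀ a ∈ Y, ∀ b ∈ Y, a ≠ b → h s(a, b) = 0
  · exact Or.inl hz
  right
  push Not at hz
  by_cases h2 : ∃ a ∈ Y, ∃ b ∈ Y, a ≠ b ∧ h s(a, b) = 2
  · left
    obtain ⟨a, ha, b, hb, hab, h2⟩ := h2
    refine ⟨a, ha, b, hb, hab, h2, ?_⟩
    have key : ∀ c ∈ Y, c ≠ a → c ≠ b → h s(b, c) = 0 ∧ h s(c, a) = 0 := by
      intro c hc hca hcb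
      have h3 := hs.tri a ha b hb c hc hab hcb.symm hca
      have h4 := hnn b hb c hc hcb.symm
      have h5 := hnn c hc a ha hca
      constructor <;> omega
    intro c hc d hd hcd hne
    by_cases hca : c = a
    · subst hca
      by_cases hdb : d = b
      · exact absurd (by rw [hdb]) hne
      rw [Sym2.eq_swap]
      exact (key d hd hcd.symm hdb).2
    by_cases hcb : c = b
    · subst hcb
      by_cases hda : d = a
      · exact absurd (by rw [hda, Sym2.eq_swap]) hne
      exact (key d hd hda hcd.symm).1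
    by_cases hda : d = a
    · subst hda
      exact (key c hc hca hcb).2
    by_cases hdb : d = b
    · subst hdb
      rw [Sym2.eq_swap]
      exact (key c hc hca hcb).1
    have h3 := hs.quad a ha b hb c hc d hd hab (Ne.symm hcb) hcd hda (Ne.symm hca) (Ne.symm hdb)
    have h4 := (key c hc hca hcb).1
    have h5 := (key d hd hda hdb).2
    have h6 := hnn c hc d hd hcd
    omega
  · right
    push Not at h2
    obtain ⟨a, ha, b, hb, hab, h1⟩ := hz
    have hle : ∀ a ∈ Y, ∀ b ∈ Y, a ≠ b → h s(a, b) = 0 ∨ h s(a, b) = 1 := by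
      intro a ha b hb hab
      obtain ⟨c, hc, d, hd, hcd, hca, hcb, hda, hdb⟩ := exists_two hY a b
      have h3 := hs.tri a ha b hb c hc hab hcb.symm hca
      have h4 := hnn a ha b hb hab
      have h5 := hnn b hb c hc hcb.symm
      have h6 := hnn c hc a ha hca
      have h7 := h2 a ha b hb hab
      omega
    have hab1 : h s(a, b) = 1 := by
      rcases hle a ha b hb hab with h3 | h3
      · exact absurd h3 h1
      · exact h3
    -- for each further vertex exactly one of the two edges has value one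
    have key : ∀ c ∈ Y, c ≠ a → c ≠ b →
        (h s(a, c) = 1 ∧ h s(b, c) = 0) ∨ (h s(a, c) = 0 ∧ h s(b, c) = 1) := by
      intro c hc hca hcb
      have h3 := hs.tri a ha b hb c hc hab hcb.symm hca
      have e1 : h s(c, a) = h s(a, c) := by rw [Sym2.eq_swap]
      rw [e1] at h3
      have h4 := hle a ha c hc hca.symm
      have h5 := hle b hb c hc hcb.symm
      omega
    have main : ∀ a ∈ Y, ∀ b ∈ Y, a ≠ b → h s(a, b) = 1 →
        (∀ c ∈ Y, c ≠ a → c ≠ b → h s(a, c) = 1) →
        ∃ a ∈ Y, (∀ b ∈ Y, b ≠ a → h s(a, b) = 1) ∧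
          ∀ b ∈ Y, ∀ c ∈ Y, b ≠ c → b ≠ a → c ≠ a → h s(b, c) = 0 := by
      intro a ha b hb hab hab1 hall
      have hall' : ∀ c ∈ Y, c ≠ a → h s(a, c) = 1 := by
        intro c hc hca
        by_cases hcb : c = b
        · rw [hcb]; exact hab1
        · exact hall c hc hca hcb
      refine ⟨a, ha, hall', ?_⟩
      intro b hb c hc hbc hba hca
      have h3 := hs.tri a ha b hb c hc hba.symm hbc hca
      have h4 := hall' b hb hba
      have h5 := hall' c hc hca
      have e1 : h s(c, a) = h s(a, c) := by rw [Sym2.eq_swap]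
      rw [e1] at h3
      have h6 := hle b hb c hc hbc
      omega
    by_cases hS : ∃ c ∈ Y, c ≠ a ∧ c ≠ b ∧ h s(b, c) = 1
    · obtain ⟨c, hc, hca, hcb, hbc1⟩ := hS
      -- then b is the centre
      apply main b hb a ha hab.symm (by rw [Sym2.eq_swap]; exact hab1)
      intro d hd hdb hda
      by_contra hne
      have h3 : h s(a, d) = 1 ∧ h s(b, d) = 0 := by
        rcases key d hd hda hdb with h3 | h3
        · exact h3
        · exact absurd h3.2 hne
      have hac0 : h s(a, c) = 0 := by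
        rcases key c hc hca hcb with h4 | h4
        · omega
        · exact h4.1
      have hcd : c ≠ d := by
        rintro rfl
        omega
      have e1 : h s(c, a) = h s(a, c) := by rw [Sym2.eq_swap]
      have e2 : h s(d, a) = h s(a, d) := by rw [Sym2.eq_swap]
      have h4 := hs.tri a ha c hc d hd hca.symm hcd hda
      have h5 := hle c hc d hd hcd
      have hcd1 : h s(c, d) = 1 := by
        rw [e2] at h4
        omega
      have h6 := hs.quad a ha b hb c hc d hd hab hcb.symm hcd hda hca.symm hdb.symm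
      rw [e2] at h6
      omega
    · push Not at hS
      apply main a ha b hb hab hab1
      intro c hc hca hcb
      rcases key c hc hca hcb with h3 | h3
      · exact h3.1
      · exact absurd h3.2 (hS c hc hca hcb)

/-- Sums of a function with short sums in `{0, 1}` over arbitrary cycles. -/
theorem Short.sum_one (hs : Short Y h 1) (hY : 4 ≤ Y.card) {n : ℕ} (hn : 3 ≤ n) {c : ZMod n → V}
    (hc : Function.Injective c) (hcY : ∀ i, c i ∈ Y) [Fintype (ZMod n)] :
    ∑ i : ZMod n, h s(c i, c (i + 1)) = 0 ∨ ∑ i : ZMod n, h s(c i, c (i + 1)) = 1 := by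
  have hne : ∀ i, c i ≠ c (i + 1) := by
    intro i hi
    have := hc hi
    apply zmod_one_ne hn
    linear_combination -this
  by_cases h0 : ∀ i, h s(c i, c (i + 1)) = 0
  · left
    exact Finset.sum_eq_zero (fun i _ => h0 i)
  · right
    push Not at h0
    obtain ⟨i, hi⟩ := h0
    rw [Finset.sum_eq_single i]
    · rcases hs.entry hY (hcY i) (hcY (i + 1)) (hne i) with h1 | h1
      · exact absurd h1 hi
      · exact h1
    · intro j _ hji
      by_contra hj
      exact hji (edge_inj hn hc (hs.unique hY (hcY j) (hcY _) (hne j) (hcY i) (hcY _) (hne i) hj hi))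
    · intro hi'
      exact absurd (Finset.mem_univ i) hi'

end Local

end Pool.Agent.Helper46.FG
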