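import Pool.Agent.Helper46.FG.Basic

/-!
# The group, the set `A`, and the designated cycles
-/

namespace Pool.Agent.Helper46.FG

open Finset

/-- The names: the first component is the number of the block; in each block there are names
`inl T`, `T` a finite set of natural numbers, and names `inr (i, j)`. -/
abbrev Nm : Type := ℕ × (Finset ℕ ⊕ (ℕ × ℕ))

/-- The group: free abelian on the pairs of names. -/
abbrev Gam : Type := Sym2 Nm →₀ ℤ

/-- The degree of `x` at the name `v`. -/
noncomputable def dg (v : Nm) (x : Gam) : ℤ := x.sum fun e z => if v ∈ e then z else 0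

theorem dg_add (v : Nm) (x y : Gam) : dg v (x + y) = dg v x + dg v y := by
  classical
  unfold dg
  rw [Finsupp.sum_add_index']
  · intro e; split_ifs <;> rfl
  · intro e b c; split_ifs <;> simp

theorem dg_zero (v : Nm) : dg v 0 = 0 := by simp [dg]

theorem dg_sum {ι : Type*} (v : Nm) (s : Finset ι) (f : ι → Gam) :
    dg v (∑ i ∈ s, f i) = ∑ i ∈ s, dg v (f i) := by
  classical
  induction s using Finset.induction_on with
  | empty => simp [dg_zero]
  | insert i s hi ih => rw [Finset.sum_insert hi, Finset.sum_insert hi, dg_add, ih]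

/-- The indicator function of a set of pairs. -/
noncomputable def ind (F : Finset (Sym2 Nm)) : Gam := ∑ e ∈ F, Finsupp.single e 1

theorem ind_apply (F : Finset (Sym2 Nm)) (e : Sym2 Nm) : ind F e = if e ∈ F then 1 else 0 := by
  classical
  unfold ind
  rw [Finsupp.finsetSum_apply]
  by_cases he : e ∈ F
  · rw [if_pos he, Finset.sum_eq_single e]
    · simp
    · intro b _ hb
      rw [Finsupp.single_apply, if_neg hb]
    · intro h; exact absurd he h
  · rw [if_neg he]
    apply Finset.sum_eq_zero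
    intro b hb
    rw [Finsupp.single_apply, if_neg]
    rintro rfl
    exact he hb

theorem dg_single (v : Nm) (e : Sym2 Nm) (z : ℤ) :
    dg v (Finsupp.single e z) = if v ∈ e then z else 0 := by
  unfold dg
  rw [Finsupp.sum_single_index]
  split_ifs <;> rfl

theorem dg_ind (v : Nm) (F : Finset (Sym2 Nm)) :
    dg v (ind F) = ∑ e ∈ F, if v ∈ e then 1 else 0 := by
  unfold ind
  rw [dg_sum]
  exact Finset.sum_congr rfl (fun e _ => dg_single v e 1)

theorem dg_ind_ne (v : Nm) (F : Finset (Sym2 Nm)) : dg v (ind F) ≠ 0 ↔ On v F := by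
  rw [dg_ind]
  constructor
  · intro h
    obtain ⟨e, he, hne⟩ := Finset.exists_ne_zero_of_sum_ne_zero h
    refine ⟨e, he, ?_⟩
    by_contra hv
    rw [if_neg hv] at hne
    exact hne rfl
  · rintro ⟨e, he, hv⟩
    have h1 : (0 : ℤ) < ∑ e ∈ F, if v ∈ e then 1 else 0 := by
      apply Finset.sum_pos'
      · intro i _; split_ifs <;> norm_num
      · exact ⟨e, he, by rw [if_pos hv]; norm_num⟩
    exact h1.ne'

/-- The vectors which are indicator functions of disjoint unions of cycles within one block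
(including zero). -/
structure Good (x : Gam) : Prop where
  entry : ∀ e, x e = 0 ∨ x e = 1
  diag : ∀ e, e.IsDiag → x e = 0
  deg : ∀ v, dg v x = 0 ∨ dg v x = 2
  block : ∀ e e', x e ≠ 0 → x e' ≠ 0 → ∀ u ∈ e, ∀ v ∈ e', u.1 = v.1

/-- The sequence of names on the designated cycle `(N, i)`: the names at even places are given
by the `s`-subsets of `{0, …, N - 1}` containing `i`, the names at odd places are private. -/
noncomputable def cseq (s N i : ℕ) (t : ℕ) : Nm :=
  if t % 2 = 0 then
    (N, Sum.inl (((((range N).powersetCard s).filter (fun T => i ∈ T)).toList).getD (t / 2) ∅))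
  else (N, Sum.inr (i, t / 2))

/-- The number of `s`-subsets of `{0, …, N - 1}` containing `i`. -/
noncomputable def cnum (s N i : ℕ) : ℕ := (((range N).powersetCard s).filter (fun T => i ∈ T)).card

/-- The edge set of the designated cycle `(N, i)`. -/
noncomputable def Dc (s N i : ℕ) : Finset (Sym2 Nm) :=
  (range (2 * cnum s N i)).image
    (fun t => s(cseq s N i t, cseq s N i ((t + 1) % (2 * cnum s N i))))

/-- The designated vectors. -/
def Des (s : ℕ) (x : Gam) : Prop := ∃ N i, s + 2 ≤ N ∧ i < N ∧ x = ind (Dc s N i)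

/-- The set `A`. -/
def setA (s : ℕ) : Set Gam := {x | ¬ Good x ∨ Des s x}

theorem getD_mem {s N i j : ℕ} (hj : j < cnum s N i) :
    ((((range N).powersetCard s).filter (fun T => i ∈ T)).toList).getD j ∅ ∈
      ((range N).powersetCard s).filter (fun T => i ∈ T) := by
  have h1 : j < ((((range N).powersetCard s).filter (fun T => i ∈ T)).toList).length := by
    rw [Finset.length_toList]; exact hj
  rw [List.getD_eq_getElem _ _ h1]
  exact Finset.mem_toList.1 (List.getElem_mem h1)

/-- Description of the edges of the designated cycles. -/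
theorem mem_Dc {s N i : ℕ} {e : Sym2 Nm} (he : e ∈ Dc s N i) :
    ∃ T j, T ∈ ((range N).powersetCard s).filter (fun T => i ∈ T) ∧
      e = s((N, Sum.inl T), (N, Sum.inr (i, j))) := by
  unfold Dc at he
  rw [Finset.mem_image] at he
  obtain ⟨t, ht, rfl⟩ := he
  rw [Finset.mem_range] at ht
  set m := cnum s N i with hm
  have hm0 : 0 < m := by omega
  rcases Nat.even_or_odd t with ⟨r, hr⟩ | ⟨r, hr⟩
  · -- t = 2 r
    have h1 : (t + 1) % (2 * m) = t + 1 := Nat.mod_eq_of_lt (by omega)
    refine ⟨((((range N).powersetCard s).filter (fun T => i ∈ T)).toList).getD (t / 2) ∅,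
      (t + 1) / 2, getD_mem (by omega), ?_⟩
    rw [h1]
    unfold cseq
    rw [if_pos (by omega), if_neg (by omega)]
  · have h2 : ((t + 1) % (2 * m)) % 2 = 0 := by
      rw [Nat.mod_mod_of_dvd _ (Dvd.intro m rfl)]
      omega
    have h3 : (t + 1) % (2 * m) < 2 * m := Nat.mod_lt _ (by omega)
    refine ⟨((((range N).powersetCard s).filter (fun T => i ∈ T)).toList).getD
      ((t + 1) % (2 * m) / 2) ∅, t / 2, getD_mem (by omega), ?_⟩
    rw [Sym2.eq_swap]
    unfold cseq
    rw [if_neg (show ¬ t % 2 = 0 by omega), if_pos h2]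

theorem Dc_disj {s N i N' i' : ℕ} {e : Sym2 Nm} (he : e ∈ Dc s N i) (he' : e ∈ Dc s N' i') :
    N = N' ∧ i = i' := by
  obtain ⟨T, j, hT, rfl⟩ := mem_Dc he
  obtain ⟨T', j', hT', h⟩ := mem_Dc he'
  rw [Sym2.eq_iff] at h
  rcases h with ⟨h1, h2⟩ | ⟨h1, h2⟩
  · simp only [Prod.mk.injEq, Sum.inr.injEq] at h2
    exact ⟨h2.1, h2.2.1⟩
  · simp at h1

theorem on_Dc {s N i : ℕ} {v : Nm} (hv : On v (Dc s N i)) :
    (∃ T, v = (N, Sum.inl T) ∧ T.card = s ∧ i ∈ T) ∨ ∃ j, v = (N, Sum.inr (i, j)) := by
  obtain ⟨e, he, hve⟩ := hv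
  obtain ⟨T, j, hT, rfl⟩ := mem_Dc he
  rw [Finset.mem_filter, Finset.mem_powersetCard] at hT
  rcases Sym2.mem_iff.1 hve with rfl | rfl
  · exact Or.inl ⟨T, rfl, hT.1.2, hT.2⟩
  · exact Or.inr ⟨j, rfl⟩

/-- Each name is on at most `s` designated cycles. -/
theorem on_Dc_card {s N : ℕ} (hs : 1 ≤ s) (v : Nm) (J : Finset ℕ) (hJ : ∀ i ∈ J, On v (Dc s N i)) :
    J.card ≤ s := by
  rcases v with ⟨N', T | ⟨i0, j⟩⟩
  · by_cases h0 : J.Nonempty
    · obtain ⟨i1, hi1⟩ := h0
      have hT : T.card = s := by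
        rcases on_Dc (hJ i1 hi1) with ⟨T', h1, h2, _⟩ | ⟨j, h1⟩
        · simp only [Prod.mk.injEq, Sum.inl.injEq] at h1
          rw [h1.2]; exact h2
        · simp at h1
      rw [← hT]
      apply Finset.card_le_card
      intro i hi
      rcases on_Dc (hJ i hi) with ⟨T', h1, h2, h3⟩ | ⟨j, h1⟩
      · simp only [Prod.mk.injEq, Sum.inl.injEq] at h1
        rw [h1.2]; exact h3
      · simp at h1
    · rw [Finset.not_nonempty_iff_eq_empty] at h0
      rw [h0]; simp
  · have h1 : J ⊆ {i0} := by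
      intro i hi
      rcases on_Dc (hJ i hi) with ⟨T', h1, h2, h3⟩ | ⟨j, h1⟩
      · simp at h1
      · simp only [Prod.mk.injEq, Sum.inr.injEq] at h1
        rw [Finset.mem_singleton, h1.2.1]
    exact (Finset.card_le_card h1).trans (by simpa using hs)

theorem cnum_two {s N i : ℕ} (hs : 2 ≤ s) (hN : s + 2 ≤ N) (hi : i < N) : 2 ≤ cnum s N i := by
  classical
  -- two explicit s-subsets
  have h1 : ((range N).erase i).card = N - 1 := by
    rw [Finset.card_erase_of_mem (Finset.mem_range.2 hi), Finset.card_range]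
  obtain ⟨U, hU, hUc⟩ := Finset.exists_subset_card_eq (s := (range N).erase i) (n := s)
    (by rw [h1]; omega)
  have hUne : 1 < U.card := by omega
  obtain ⟨x, hx, y, hy, hxy⟩ := Finset.one_lt_card.1 hUne
  have hiU : i ∉ U := fun h => (Finset.mem_erase.1 (hU h)).1 rfl
  have hmem : ∀ z ∈ U, insert i (U.erase z) ∈
      ((range N).powersetCard s).filter (fun T => i ∈ T) := by
    intro z hz
    rw [Finset.mem_filter, Finset.mem_powersetCard]
    refine ⟨⟨?_, ?_⟩, Finset.mem_insert_self _ _⟩
    · intro w hw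
      rcases Finset.mem_insert.1 hw with rfl | hw
      · exact Finset.mem_range.2 hi
      · exact (Finset.mem_erase.1 (hU (Finset.mem_erase.1 hw).2)).2
    · rw [Finset.card_insert_of_notMem (fun h => hiU (Finset.mem_erase.1 h).2),
        Finset.card_erase_of_mem hz]
      omega
  have h2 : 1 < cnum s N i := by
    unfold cnum
    rw [Finset.one_lt_card]
    refine ⟨_, hmem x hx, _, hmem y hy, ?_⟩
    intro h
    have h3 : y ∈ insert i (U.erase x) :=
      Finset.mem_insert_of_mem (Finset.mem_erase.2 ⟨hxy.symm, hy⟩)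
    rw [h] at h3
    rcases Finset.mem_insert.1 h3 with h3 | h3
    · exact hiU (h3 ▸ hy)
    · exact (Finset.mem_erase.1 h3).1 rfl
  omega

/-- The names `inl T` are on the designated cycles `(N, i)`, `i ∈ T`. -/
theorem on_Dc_inl {s N i : ℕ} {T : Finset ℕ} (hT : T ⊆ range N) (hTc : T.card = s) (hi : i ∈ T) :
    On ((N, Sum.inl T) : Nm) (Dc s N i) := by
  have hmem : T ∈ ((range N).powersetCard s).filter (fun T => i ∈ T) := by
    rw [Finset.mem_filter, Finset.mem_powersetCard]
    exact ⟨⟨hT, hTc⟩, hi⟩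
  obtain ⟨j, hj, hj'⟩ := List.getElem_of_mem (Finset.mem_toList.2 hmem)
  have hjm : j < cnum s N i := by
    unfold cnum
    rw [← Finset.length_toList]; exact hj
  refine ⟨s(cseq s N i (2 * j), cseq s N i ((2 * j + 1) % (2 * cnum s N i))), ?_, ?_⟩
  · unfold Dc
    rw [Finset.mem_image]
    exact ⟨2 * j, Finset.mem_range.2 (by omega), rfl⟩
  · have h1 : cseq s N i (2 * j) = (N, Sum.inl T) := by
      unfold cseq
      rw [if_pos (by omega), show 2 * j / 2 = j by omega, List.getD_eq_getElem _ _ hj, hj']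
    rw [h1]
    exact Sym2.mem_mk_left _ _

/-- A name on all `(N, i)`, `i ∈ T`, is `inl T`. -/
theorem eq_inl {s N : ℕ} (hs : 2 ≤ s) {T : Finset ℕ} (hTc : T.card = s) {v : Nm}
    (hv : ∀ i ∈ T, On v (Dc s N i)) : v = (N, Sum.inl T) := by
  obtain ⟨i, hi, j, hj, hij⟩ := Finset.one_lt_card.1 (show 1 < T.card by omega)
  rcases on_Dc (hv i hi) with ⟨T', h1, h2, h3⟩ | ⟨j', h1⟩
  · rw [h1]
    congr 2
    symm
    apply Finset.eq_of_subset_of_card_le
    · intro x hx
      rcases on_Dc (hv x hx) with ⟨T'', h4, h5, h6⟩ | ⟨j'', h4⟩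
      · rw [h1] at h4
        simp only [Prod.mk.injEq, Sum.inl.injEq] at h4
        rw [h4.2]; exact h6
      · rw [h1] at h4; simp at h4
    · rw [h2, hTc]
  · rcases on_Dc (hv j hj) with ⟨T'', h4, h5, h6⟩ | ⟨j'', h4⟩
    · rw [h1] at h4; simp at h4
    · rw [h1] at h4
      simp only [Prod.mk.injEq, Sum.inr.injEq] at h4
      exact absurd h4.2.1 hij

theorem Dc_nonempty {s N i : ℕ} (hs : 2 ≤ s) (hN : s + 2 ≤ N) (hi : i < N) :
    (Dc s N i).Nonempty := by
  have h1 := cnum_two hs hN hi
  exact ⟨_, Finset.mem_image.2 ⟨0, Finset.mem_range.2 (by omega), rfl⟩⟩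

theorem Dc_block {s N i : ℕ} {e : Sym2 Nm} (he : e ∈ Dc s N i) {v : Nm} (hv : v ∈ e) :
    v.1 = N := by
  obtain ⟨T, j, hT, rfl⟩ := mem_Dc he
  rcases Sym2.mem_iff.1 hv with rfl | rfl <;> rfl

theorem cseq_inj {s N i : ℕ} {t t' : ℕ} (ht : t < 2 * cnum s N i) (ht' : t' < 2 * cnum s N i)
    (h : cseq s N i t = cseq s N i t') : t = t' := by
  have hnd := Finset.nodup_toList (((range N).powersetCard s).filter (fun T => i ∈ T))
  have hlen : ((((range N).powersetCard s).filter (fun T => i ∈ T)).toList).length =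
    cnum s N i := Finset.length_toList _
  unfold cseq at h
  by_cases h1 : t % 2 = 0
  · by_cases h2 : t' % 2 = 0
    · rw [if_pos h1, if_pos h2] at h
      simp only [Prod.mk.injEq, Sum.inl.injEq, true_and] at h
      rw [List.getD_eq_getElem _ _ (by rw [hlen]; omega),
        List.getD_eq_getElem _ _ (by rw [hlen]; omega)] at h
      have h3 := (List.Nodup.getElem_inj_iff hnd).1 h
      omega
    · rw [if_pos h1, if_neg h2] at h
      simp at h
  · by_cases h2 : t' % 2 = 0
    · rw [if_neg h1, if_pos h2] at h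
      simp at h
    · rw [if_neg h1, if_neg h2] at h
      simp only [Prod.mk.injEq, Sum.inr.injEq, true_and] at h
      omega

end Pool.Agent.Helper46.FG
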