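import Pool.Agent.Helper46.FG.Main

/-!
# Transport to the free abelian group of countable rank
-/

namespace Pool.Agent.Helper46.FG

open Finset

theorem val_map {V Γ Γ' : Type*} [AddCommGroup Γ] [AddCommGroup Γ'] (e : Γ ≃+ Γ')
    (γ : Sym2 V → Γ) (F : Finset (Sym2 V)) : val (fun x => e (γ x)) F = e (val γ F) := by
  unfold val
  rw [map_sum]

theorem EP.transport {𝒢 : (V : Type) → SimpleGraph V → Prop} {Γ Γ' : Type} [AddCommGroup Γ]
    [AddCommGroup Γ'] (e : Γ ≃+ Γ') {A : Set Γ'} {s : ℕ} (h : EP 𝒢 Γ (e ⁻¹' A) s) :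
    EP 𝒢 Γ' A s := by
  obtain ⟨f, hf⟩ := h
  refine ⟨f, ?_⟩
  intro V hV G hG γ k hk
  have key : ∀ F, val (fun x => e.symm (γ x)) F ∈ (e ⁻¹' A) ↔ val γ F ∈ A := by
    intro F
    rw [val_map e.symm γ F, Set.mem_preimage, AddEquiv.apply_symm_apply]
  rcases hf V hV G hG (fun x => e.symm (γ x)) k hk with ⟨P, hPc, hP, hPv⟩ | ⟨H, hHc, hH⟩
  · left
    exact ⟨P, hPc, fun F hF => ⟨(hP F hF).1, (key F).1 (hP F hF).2⟩, hPv⟩
  · right
    exact ⟨H, hHc, fun F hF hA => hH F hF ((key F).2 hA)⟩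

theorem EP.transport_iff {𝒢 : (V : Type) → SimpleGraph V → Prop} {Γ Γ' : Type} [AddCommGroup Γ]
    [AddCommGroup Γ'] (e : Γ ≃+ Γ') {A : Set Γ'} {s : ℕ} :
    EP 𝒢 Γ (e ⁻¹' A) s ↔ EP 𝒢 Γ' A s := by
  refine ⟨EP.transport e, ?_⟩
  intro h
  have h1 : EP 𝒢 Γ' (e.symm ⁻¹' (e ⁻¹' A)) s := by
    have h2 : e.symm ⁻¹' (e ⁻¹' A) = A := by
      ext x
      simp
    rw [h2]; exact h
  exact EP.transport e.symm h1

theorem exists_equiv : Nonempty (Gam ≃+ (ℕ →₀ ℤ)) := by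
  haveI : Infinite (Sym2 Nm) := by
    have h1 : Function.Injective (fun v : Nm => s(v, v)) := by
      intro v w h
      simpa using h
    exact Infinite.of_injective _ h1
  haveI : Countable (Sym2 Nm) := by
    unfold Sym2
    infer_instance
  obtain ⟨e⟩ : Nonempty (Sym2 Nm ≃ ℕ) := nonempty_equiv_of_countable
  exact ⟨Finsupp.domCongr e⟩

/-- The goal. -/
theorem goal : ∀ s : ℕ, 3 ≤ s → ∃ A : Set (ℕ →₀ ℤ),
    EP (fun _ G => G = ⊤) (ℕ →₀ ℤ) A (s + 1) ∧ ¬ EP (fun _ G => G = ⊤) (ℕ →₀ ℤ) A s := by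
  intro s hs
  obtain ⟨e⟩ := exists_equiv
  refine ⟨e.symm ⁻¹' (setA s), ?_, ?_⟩
  · rw [EP.transport_iff e.symm]
    exact EP_succ (by omega)
  · rw [EP.transport_iff e.symm]
    exact not_EP (by omega)

end Pool.Agent.Helper46.FG
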