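import Pool.Agent.Helper46.FG.Design

/-!
# `EP_s` fails for the labellings of complete graphs
-/

namespace Pool.Agent.Helper46.FG

open Finset

/-- The names of block `N` on designated cycles. -/
noncomputable def VN (s N : ℕ) : Finset Nm :=
  (range N).biUnion (fun i => (Dc s N i).biUnion (fun e => e.toFinset))

theorem mem_VN {s N : ℕ} {v : Nm} : v ∈ VN s N ↔ ∃ i < N, On v (Dc s N i) := by
  unfold VN On
  simp only [Finset.mem_biUnion, Finset.mem_range, Sym2.mem_toFinset]

/-- The identity labelling. -/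
noncomputable def idl (s N : ℕ) (e : Sym2 {v // v ∈ VN s N}) : Gam :=
  Finsupp.single (e.map Subtype.val) 1

theorem ind_inj {F F' : Finset (Sym2 Nm)} (h : ind F = ind F') : F = F' := by
  ext e
  have h1 : ind F e = ind F' e := by rw [h]
  rw [ind_apply, ind_apply] at h1
  split_ifs at h1 with h2 h3 h3
  · exact ⟨fun _ => h3, fun _ => h2⟩
  · exact absurd h1 one_ne_zero
  · exact absurd h1 zero_ne_one
  · exact ⟨fun h => absurd h h2, fun h => absurd h h3⟩

theorem val_idl {s N : ℕ} (F : Finset (Sym2 {v // v ∈ VN s N})) :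
    val (idl s N) F = ind (F.image (Sym2.map Subtype.val)) := by
  unfold val ind idl
  rw [Finset.sum_image]
  intro x _ y _ hxy
  exact Sym2.map.injective Subtype.val_injective hxy

theorem block_of_mem {s N : ℕ} {v : Nm} (hv : v ∈ VN s N) : v.1 = N := by
  obtain ⟨i, _, e, he, hve⟩ := mem_VN.1 hv
  exact Dc_block he hve

/-- The `A`-cycles of the identity labelling are designated. -/
theorem des_of_cyc {s N : ℕ} (hs : 2 ≤ s) {F : Finset (Sym2 {v // v ∈ VN s N})}
    (hF : IsCyc (⊤ : SimpleGraph {v // v ∈ VN s N}) F) (hA : val (idl s N) F ∈ setA s) :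
    ∃ i < N, F.image (Sym2.map Subtype.val) = Dc s N i := by
  classical
  obtain ⟨n, hn, c, hc, hadj, hFe⟩ := hF
  haveI : NeZero n := ⟨by omega⟩
  have hmemF : ∀ e, e ∈ F.image (Sym2.map Subtype.val) ↔
      ∃ i : ZMod n, e = s((c i).1, (c (i + 1)).1) := by
    intro e
    rw [Finset.mem_image]
    constructor
    · rintro ⟨e', he', rfl⟩
      obtain ⟨i, rfl⟩ := (hFe e').1 he'
      exact ⟨i, rfl⟩
    · rintro ⟨i, rfl⟩
      exact ⟨s(c i, c (i + 1)), (hFe _).2 ⟨i, rfl⟩, rfl⟩
  have hc' : Function.Injective (fun i => (c i).1) := fun i j hij => hc (Subtype.ext hij)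
  have hgood : Good (val (idl s N) F) := by
    rw [val_idl]
    refine ⟨?_, ?_, ?_, ?_⟩
    · intro e
      rw [ind_apply]
      split_ifs
      · exact Or.inr rfl
      · exact Or.inl rfl
    · intro e he
      rw [ind_apply, if_neg]
      intro h
      obtain ⟨i, rfl⟩ := (hmemF e).1 h
      have h1 : (c i).1 = (c (i + 1)).1 := he
      exact (hadj i) (Subtype.ext h1)
    · intro v
      rw [dg_ind, sum_cyc hn hc' hmemF (fun e => if v ∈ e then (1 : ℤ) else 0)]
      by_cases hv : ∃ j, v = (c j).1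
      · obtain ⟨j, rfl⟩ := hv
        exact Or.inr (sum_star hn hc' j)
      · push Not at hv
        exact Or.inl (sum_star_zero hv)
    · intro e e' he he' u hu v hv
      rw [ind_apply] at he he'
      have h1 : e ∈ F.image (Sym2.map Subtype.val) := by
        by_contra h; rw [if_neg h] at he; exact he rfl
      have h2 : e' ∈ F.image (Sym2.map Subtype.val) := by
        by_contra h; rw [if_neg h] at he'; exact he' rfl
      obtain ⟨i, rfl⟩ := (hmemF e).1 h1
      obtain ⟨j, rfl⟩ := (hmemF e').1 h2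
      have h3 : u.1 = N := by
        rcases Sym2.mem_iff.1 hu with rfl | rfl
        · exact block_of_mem (c i).2
        · exact block_of_mem (c (i + 1)).2
      have h4 : v.1 = N := by
        rcases Sym2.mem_iff.1 hv with rfl | rfl
        · exact block_of_mem (c j).2
        · exact block_of_mem (c (j + 1)).2
      rw [h3, h4]
  rcases hA with hA | ⟨N', i, hN', hi, h⟩
  · exact absurd hgood hA
  · rw [val_idl] at h
    have h1 := ind_inj h
    obtain ⟨e, he⟩ := Dc_nonempty hs hN' hi
    have h2 : e ∈ F.image (Sym2.map Subtype.val) := by rw [h1]; exact he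
    obtain ⟨j, rfl⟩ := (hmemF e).1 h2
    have h3 : N = N' := by
      rw [← block_of_mem (c j).2]
      exact Dc_block he (Sym2.mem_mk_left _ _)
    subst h3
    exact ⟨i, hi, h1⟩

/-- Each designated cycle occurs in the identity labelling. -/
theorem exists_cyc {s N i : ℕ} (hs : 2 ≤ s) (hN : s + 2 ≤ N) (hi : i < N) :
    ∃ F : Finset (Sym2 {v // v ∈ VN s N}), IsCyc (⊤ : SimpleGraph {v // v ∈ VN s N}) F ∧
      F.image (Sym2.map Subtype.val) = Dc s N i := by
  classical
  set n := 2 * cnum s N i with hn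
  have hn4 : 4 ≤ n := by have := cnum_two hs hN hi; omega
  haveI : NeZero n := ⟨by omega⟩
  have hsucc : ∀ t : ZMod n, (t + 1).val = (t.val + 1) % n := by
    intro t
    rw [ZMod.val_add, ZMod.val_one_eq_one_mod, Nat.mod_eq_of_lt (show 1 < n by omega)]
  have hedge : ∀ t : ZMod n, s(cseq s N i t.val, cseq s N i (t + 1).val) ∈ Dc s N i := by
    intro t
    rw [hsucc]
    exact Finset.mem_image.2 ⟨t.val, Finset.mem_range.2 (ZMod.val_lt t), rfl⟩
  have hmem : ∀ t : ZMod n, cseq s N i t.val ∈ VN s N := by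
    intro t
    exact mem_VN.2 ⟨i, hi, _, hedge t, Sym2.mem_mk_left _ _⟩
  let c : ZMod n → {v // v ∈ VN s N} := fun t => ⟨cseq s N i t.val, hmem t⟩
  have hcinj : Function.Injective c := by
    intro t t' h
    apply ZMod.val_injective n
    exact cseq_inj (ZMod.val_lt t) (ZMod.val_lt t') (congrArg Subtype.val h)
  refine ⟨Finset.univ.image (fun t => s(c t, c (t + 1))), ⟨n, by omega, c, hcinj, ?_, ?_⟩, ?_⟩
  · intro t
    rw [SimpleGraph.top_adj]
    intro h
    have h1 := hcinj h
    apply zmod_one_ne (show 3 ≤ n by omega)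
    linear_combination -h1
  · intro e
    rw [Finset.mem_image]
    constructor
    · rintro ⟨t, _, rfl⟩; exact ⟨t, rfl⟩
    · rintro ⟨t, rfl⟩; exact ⟨t, Finset.mem_univ _, rfl⟩
  · ext e
    rw [Finset.mem_image]
    constructor
    · rintro ⟨e', he', rfl⟩
      obtain ⟨t, _, rfl⟩ := Finset.mem_image.1 he'
      exact hedge t
    · intro he
      unfold Dc at he
      obtain ⟨t, ht, rfl⟩ := Finset.mem_image.1 he
      rw [Finset.mem_range] at ht
      refine ⟨s(c (t : ZMod n), c ((t : ZMod n) + 1)),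
        Finset.mem_image.2 ⟨(t : ZMod n), Finset.mem_univ _, rfl⟩, ?_⟩
      show s(cseq s N i (t : ZMod n).val, cseq s N i ((t : ZMod n) + 1).val) = _
      rw [hsucc, ZMod.val_natCast, Nat.mod_eq_of_lt (show t < n by omega)]

theorem on_image {s N : ℕ} {F : Finset (Sym2 {v // v ∈ VN s N})} (v : {v // v ∈ VN s N}) :
    On v.1 (F.image (Sym2.map Subtype.val)) ↔ On v F := by
  constructor
  · rintro ⟨e, he, hv⟩
    obtain ⟨e', he', rfl⟩ := Finset.mem_image.1 he
    refine ⟨e', he', ?_⟩
    obtain ⟨w, hw, hwv⟩ := Sym2.mem_map.1 hv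
    have : w = v := Subtype.ext hwv
    rw [← this]; exact hw
  · rintro ⟨e, he, hv⟩
    exact ⟨_, Finset.mem_image_of_mem _ he, Sym2.mem_map.2 ⟨v, hv, rfl⟩⟩

theorem not_EP {s : ℕ} (hs : 2 ≤ s) : ¬ EP (fun _ G => G = ⊤) Gam (setA s) s := by
  classical
  rintro ⟨f, hf⟩
  set N := s * f s + s + 2 with hN
  have hsN : s + 2 ≤ N := by omega
  rcases hf {v // v ∈ VN s N} inferInstance ⊤ rfl (idl s N) s (by omega) with
    ⟨P, hPc, hPA, hPv⟩ | ⟨H, hHc, hH⟩
  · -- the packing
    have hdes : ∀ F ∈ P, ∃ i < N, F.image (Sym2.map Subtype.val) = Dc s N i :=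
      fun F hF => des_of_cyc hs (hPA F hF).1 (hPA F hF).2
    choose! ix hix using hdes
    have hinj : Set.InjOn ix (P : Set (Finset (Sym2 {v // v ∈ VN s N}))) := by
      intro F hF F' hF' h
      have h1 := (hix F hF).2
      have h2 := (hix F' hF').2
      rw [h, ← h2] at h1
      exact Finset.image_injective (Sym2.map.injective Subtype.val_injective) h1
    have hTc : (P.image ix).card = s := by rw [Finset.card_image_of_injOn hinj, hPc]
    have hTN : P.image ix ⊆ range N := by
      intro i hi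
      obtain ⟨F, hF, rfl⟩ := Finset.mem_image.1 hi
      exact Finset.mem_range.2 (hix F hF).1
    have hTne : (P.image ix).Nonempty := by
      rw [← Finset.card_pos, hTc]; omega
    obtain ⟨i0, hi0⟩ := hTne
    have hvm : ((N, Sum.inl (P.image ix)) : Nm) ∈ VN s N :=
      mem_VN.2 ⟨i0, Finset.mem_range.1 (hTN hi0), on_Dc_inl hTN hTc hi0⟩
    have h1 := hPv ⟨_, hvm⟩
    have h2 : {F | F ∈ P ∧ On (⟨_, hvm⟩ : {v // v ∈ VN s N}) F} = (P : Set _) := by
      ext F
      simp only [Set.mem_setOf_eq, Finset.mem_coe]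
      refine ⟨fun h => h.1, fun hF => ⟨hF, ?_⟩⟩
      rw [← on_image, (hix F hF).2]
      exact on_Dc_inl hTN hTc (Finset.mem_image_of_mem _ hF)
    rw [h2, Set.ncard_coe_finset, hPc] at h1
    omega
  · -- the hitting set
    have h1 : ∀ i ∈ range N, ∃ v ∈ H, On v.1 (Dc s N i) := by
      intro i hi
      obtain ⟨F, hF, hFi⟩ := exists_cyc hs hsN (Finset.mem_range.1 hi)
      obtain ⟨v, hv, hvF⟩ := hH F hF (by
        rw [val_idl, hFi]
        exact Or.inr ⟨N, i, hsN, Finset.mem_range.1 hi, rfl⟩)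
      refine ⟨v, hv, ?_⟩
      rw [← hFi, on_image]
      exact hvF
    have h2 : range N ⊆ H.biUnion (fun v => (range N).filter (fun i => On v.1 (Dc s N i))) := by
      intro i hi
      obtain ⟨v, hv, hvi⟩ := h1 i hi
      exact Finset.mem_biUnion.2 ⟨v, hv, Finset.mem_filter.2 ⟨hi, hvi⟩⟩
    have h3 := Finset.card_le_card h2
    rw [Finset.card_range] at h3
    have h4 : (H.biUnion (fun v => (range N).filter (fun i => On v.1 (Dc s N i)))).card ≤
        H.card * s := by
      apply Finset.card_biUnion_le_card_mul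
      intro v _
      apply on_Dc_card (by omega) v.1
      intro i hi
      exact (Finset.mem_filter.1 hi).2
    have h5 : H.card * s ≤ f s * s := Nat.mul_le_mul_right _ hHc
    have h6 : f s * s = s * f s := Nat.mul_comm _ _
    omega

end Pool.Agent.Helper46.FG
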