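import Pool.Agent.Helper46.FG.Pos
import Pool.Agent.Helper46.FG.Neg

/-!
# The main theorem
-/

namespace Pool.Agent.Helper46.FG

open Finset

section Final

variable {V : Type} [Fintype V] [DecidableEq V] {s : ℕ} {Y : Finset V} {γ : Sym2 V → Gam}

/-- The dichotomy inside `Y`. -/
theorem Loc.dichotomy (hl : Loc Y γ) (hs : 2 ≤ s) (k : ℕ) :
    (∃ P : Finset (Finset (Sym2 V)), P.card = k ∧
      (∀ F ∈ P, In Y F ∧ val γ F ∈ setA s) ∧ ∀ v : V, {F | F ∈ P ∧ On v F}.ncard ≤ s) ∨
    (∃ H : Finset V, H.card ≤ k + s ∧ ∀ F, In Y F → val γ F ∈ setA s → ∃ v ∈ H, On v F) := by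
  classical
  -- the values are designated
  have hdes : ∀ F, In Y F → val γ F ∈ setA s →
      ∃ N i, s + 2 ≤ N ∧ i < N ∧ val γ F = ind (Dc s N i) := by
    intro F hF hA
    rcases hA with hA | hA
    · exact absurd (hl.good hF) hA
    · exact hA
  by_cases hex : ∃ F N i, In Y F ∧ s + 2 ≤ N ∧ i < N ∧ val γ F = ind (Dc s N i)
  swap
  · right
    refine ⟨∅, by simp, ?_⟩
    intro F hF hA
    obtain ⟨N, i, hN, hi, hv⟩ := hdes F hF hA
    exact absurd ⟨F, N, i, hF, hN, hi, hv⟩ hex
  obtain ⟨F0, N, i00, hF0, hN, hi00, hv0⟩ := hex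
  -- all designated values are in the block `N`
  have hblock : ∀ F N' i, In Y F → s + 2 ≤ N' → i < N' → val γ F = ind (Dc s N' i) →
      N' = N := by
    intro F N' i hF hN' hi hv
    obtain ⟨e, he⟩ := Dc_nonempty hs hN hi00
    obtain ⟨e', he'⟩ := Dc_nonempty hs hN' hi
    have h1 : (val γ F0) e ≠ 0 := by rw [hv0, ind_apply, if_pos he]; norm_num
    have h2 : (val γ F) e' ≠ 0 := by rw [hv, ind_apply, if_pos he']; norm_num
    obtain ⟨f, hf, hfe⟩ := exists_edge h1
    obtain ⟨f', hf', hfe'⟩ := exists_edge h2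
    obtain ⟨n, hn, c, hc, hcY, hne, hFe⟩ := hF0.param
    obtain ⟨n', hn', c', hc', hcY', hne', hFe'⟩ := hF.param
    obtain ⟨j, rfl⟩ := (hFe f).1 hf
    obtain ⟨j', rfl⟩ := (hFe' f').1 hf'
    have h3 := hl.block (hcY j) (hcY _) (hne j) (hcY' j') (hcY' _) (hne' j') hfe hfe'
    induction e with
    | h u u' =>
      induction e' with
      | h w w' =>
        have h4 := h3 u (Sym2.mem_mk_left _ _) w (Sym2.mem_mk_left _ _)
        have h5 := Dc_block he (Sym2.mem_mk_left u u')
        have h6 := Dc_block he' (Sym2.mem_mk_left w w')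
        rw [← h5, ← h6, h4]
  -- the set of indices
  set I : Finset ℕ := (range N).filter (fun i => ∃ F, In Y F ∧ val γ F = ind (Dc s N i)) with hI
  have hIF : ∀ i ∈ I, ∃ F, In Y F ∧ val γ F = ind (Dc s N i) :=
    fun i hi => (Finset.mem_filter.1 hi).2
  have hIN : ∀ i ∈ I, i < N := fun i hi => Finset.mem_range.1 (Finset.mem_filter.1 hi).1
  choose! Fc hFY hFv using hIF
  by_cases hcard : k + s ≤ I.card
  · -- the packing
    left
    obtain ⟨J, hJI, hJc⟩ := Finset.exists_subset_card_eq (s := I) (n := k) (by omega)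
    obtain ⟨T, hTI, hTc⟩ := Finset.exists_subset_card_eq (s := I) (n := s) (by omega)
    have hinj : Set.InjOn Fc (J : Set ℕ) := by
      intro i hi j hj hij
      have h1 := hFv i (hJI hi)
      have h2 := hFv j (hJI hj)
      rw [hij, h2] at h1
      have h3 := ind_inj' h1
      obtain ⟨e, he⟩ := Dc_nonempty hs hN (hIN i (hJI hi))
      have he' : e ∈ Dc s N j := by rw [h3]; exact he
      exact (Dc_disj he he').2
    refine ⟨J.image Fc, by rw [Finset.card_image_of_injOn hinj, hJc], ?_, ?_⟩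
    · intro F hF
      obtain ⟨i, hi, rfl⟩ := Finset.mem_image.1 hF
      refine ⟨hFY i (hJI hi), ?_⟩
      rw [hFv i (hJI hi)]
      exact Or.inr ⟨N, i, hN, hIN i (hJI hi), rfl⟩
    · intro x
      by_cases hx : x ∈ Y
      · obtain ⟨v, hv⟩ := hl.named hs (T := T) (N := N)
          (fun i hi => Finset.mem_range.2 (hIN i (hTI hi))) hTc
          (fun i hi => hFY i (hTI hi)) (fun i hi => hFv i (hTI hi)) x hx
        have h1 : {F | F ∈ J.image Fc ∧ On x F} ⊆
            (((J.filter (fun i => On v (Dc s N i))).image Fc : Finset (Finset (Sym2 V))) :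
              Set (Finset (Sym2 V))) := by
          rintro F ⟨hF, hxF⟩
          obtain ⟨i, hi, rfl⟩ := Finset.mem_image.1 hF
          rw [Finset.mem_coe, Finset.mem_image]
          refine ⟨i, Finset.mem_filter.2 ⟨hi, ?_⟩, rfl⟩
          rw [← dg_ind_ne, ← hFv i (hJI hi), hv.ne (hFY i (hJI hi))]
          exact hxF
        refine (Set.ncard_le_ncard h1 (Finset.finite_toSet _)).trans ?_
        rw [Set.ncard_coe_finset]
        refine Finset.card_image_le.trans ?_
        apply on_Dc_card (by omega) v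
        intro i hi
        exact (Finset.mem_filter.1 hi).2
      · have h1 : {F | F ∈ J.image Fc ∧ On x F} = ∅ := by
          ext F
          simp only [Set.mem_setOf_eq, Set.mem_empty_iff_false, iff_false, not_and]
          intro hF hxF
          obtain ⟨i, hi, rfl⟩ := Finset.mem_image.1 hF
          exact hx ((hFY i (hJI hi)).2 x hxF)
        rw [h1]
        simp
  · -- the hitting set
    right
    push Not at hcard
    have hxv : ∀ i ∈ I, ∃ x : V, ∀ F, In Y F → val γ F = ind (Dc s N i) → On x F := by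
      intro i hi
      obtain ⟨e, he⟩ := Dc_nonempty hs hN (hIN i hi)
      have h1 : (val γ (Fc i)) e ≠ 0 := by rw [hFv i hi, ind_apply, if_pos he]; norm_num
      obtain ⟨f, hf, hfe⟩ := exists_edge h1
      obtain ⟨n, hn, c, hc, hcY, hne, hFe⟩ := (hFY i hi).param
      obtain ⟨j, rfl⟩ := (hFe f).1 hf
      refine ⟨c j, ?_⟩
      intro F hF hv
      have h2 : (val γ F) e ≠ 0 := by rw [hv, ind_apply, if_pos he]; norm_num
      obtain ⟨f', hf', hfe'⟩ := exists_edge h2
      obtain ⟨n', hn', c', hc', hcY', hne', hFe'⟩ := hF.param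
      obtain ⟨j', rfl⟩ := (hFe' f').1 hf'
      have h3 := (hl.short_one e).unique hl.card (hcY j) (hcY _) (hne j) (hcY' j') (hcY' _)
        (hne' j') hfe hfe'
      exact ⟨_, hf', by rw [← h3]; exact Sym2.mem_mk_left _ _⟩
    haveI : Nonempty V := by
      obtain ⟨n, hn, c, hc, hcY, hne, hFe⟩ := hF0.param
      exact ⟨c 0⟩
    choose! xv hxv using hxv
    refine ⟨I.image xv, ?_, ?_⟩
    · have := Finset.card_image_le (s := I) (f := xv)
      omega
    · intro F hF hA
      obtain ⟨N', i, hN', hi, hv⟩ := hdes F hF hA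
      have hNN := hblock F N' i hF hN' hi hv
      subst hNN
      have hiI : i ∈ I := Finset.mem_filter.2 ⟨Finset.mem_range.2 hi, F, hF, hv⟩
      exact ⟨xv i, Finset.mem_image_of_mem _ hiI, hxv i hiI F hF hv⟩

end Final

/-- `EP_(s+1)` for the labellings of complete graphs. -/
theorem EP_succ {s : ℕ} (hs : 2 ≤ s) : EP (fun _ G => G = ⊤) Gam (setA s) (s + 1) := by
  classical
  refine ⟨fun k => 8 * k + 3 + k + s, ?_⟩
  intro V hV G hG γ k hk
  haveI := Fintype.ofFinite V
  subst hG
  set vts : Finset (Sym2 V) → Finset V := fun F => F.biUnion (fun e => e.toFinset) with hvts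
  have hmv : ∀ F v, v ∈ vts F ↔ On v F := by
    intro F v
    rw [hvts]
    simp only [Finset.mem_biUnion, Sym2.mem_toFinset, On]
  -- the short A-cycles
  set S : Finset (Finset (Sym2 V)) := Finset.univ.filter
    (fun F => IsCyc (⊤ : SimpleGraph V) F ∧ val γ F ∈ setA s ∧ F.card ≤ 4) with hS
  -- a maximal disjoint family
  set Q : Finset (Finset (Finset (Sym2 V))) := S.powerset.filter
    (fun M => ∀ F ∈ M, ∀ F' ∈ M, F ≠ F' → Disjoint (vts F) (vts F')) with hQ
  have hQne : Q.Nonempty := ⟨∅, by simp [hQ]⟩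
  obtain ⟨M, hM, hMmax⟩ := Finset.exists_max_image Q Finset.card hQne
  have hMS : M ⊆ S := Finset.mem_powerset.1 (Finset.mem_filter.1 hM).1
  have hMd := (Finset.mem_filter.1 hM).2
  by_cases hMk : k ≤ M.card
  · left
    obtain ⟨P, hPM, hPc⟩ := Finset.exists_subset_card_eq hMk
    refine ⟨P, hPc, ?_, ?_⟩
    · intro F hF
      have h1 := (Finset.mem_filter.1 (hMS (hPM hF))).2
      exact ⟨h1.1, h1.2.1⟩
    · intro v
      have h1 : {F | F ∈ P ∧ On v F}.Subsingleton := by
        rintro F ⟨hF, hvF⟩ F' ⟨hF', hvF'⟩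
        by_contra hne
        exact Finset.disjoint_left.1 (hMd F (hPM hF) F' (hPM hF') hne) ((hmv _ _).2 hvF)
          ((hmv _ _).2 hvF')
      have h2 := Set.ncard_le_one_iff_subsingleton.2 h1
      omega
  push Not at hMk
  set Z : Finset V := M.biUnion vts with hZ
  have hZc : Z.card ≤ 8 * k := by
    have h1 : Z.card ≤ M.card * 8 := by
      apply Finset.card_biUnion_le_card_mul
      intro F hF
      have h2 : F.card ≤ 4 := (Finset.mem_filter.1 (hMS hF)).2.2.2
      have h3 : (vts F).card ≤ F.card * 2 := by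
        apply Finset.card_biUnion_le_card_mul
        intro e _
        induction e with
        | h a b => rw [Sym2.toFinset_mk_eq]; exact Finset.card_le_two
      omega
    omega
  -- every short A-cycle meets Z
  have hshort : ∀ F, IsCyc (⊤ : SimpleGraph V) F → val γ F ∈ setA s → F.card ≤ 4 →
      ∃ v ∈ Z, On v F := by
    intro F hF hA hc
    by_contra hno
    push Not at hno
    have hFS : F ∈ S := Finset.mem_filter.2 ⟨Finset.mem_univ _, hF, hA, hc⟩
    have hFne : ∃ v, On v F := by
      obtain ⟨n, hn, c, hcinj, hadj, hFe⟩ := hF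
      exact ⟨c 0, (on_cyc hFe _).2 ⟨0, rfl⟩⟩
    have hFM : F ∉ M := by
      intro h
      obtain ⟨v, hv⟩ := hFne
      exact hno v (Finset.mem_biUnion.2 ⟨F, h, (hmv _ _).2 hv⟩) hv
    have hnew : insert F M ∈ Q := by
      rw [hQ, Finset.mem_filter, Finset.mem_powerset]
      refine ⟨Finset.insert_subset hFS hMS, ?_⟩
      have hd : ∀ F' ∈ M, Disjoint (vts F) (vts F') := by
        intro F' hF'
        rw [Finset.disjoint_left]
        intro v hv hv'
        exact hno v (Finset.mem_biUnion.2 ⟨F', hF', hv'⟩) ((hmv _ _).1 hv)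
      intro F1 h1 F2 h2 hne
      rcases Finset.mem_insert.1 h1 with h1 | h1
      · rcases Finset.mem_insert.1 h2 with h2 | h2
        · exact absurd (h1.trans h2.symm) hne
        · rw [h1]
          exact hd F2 h2
      · rcases Finset.mem_insert.1 h2 with h2 | h2
        · rw [h2]
          exact (hd F1 h1).symm
        · exact hMd F1 h1 F2 h2 hne
    have h3 := hMmax _ hnew
    rw [Finset.card_insert_of_notMem hFM] at h3
    omega
  set Y : Finset V := Zᶜ with hY
  by_cases hY4 : 4 ≤ Y.card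
  swap
  · -- few vertices
    right
    refine ⟨Finset.univ, ?_, ?_⟩
    · have h1 := Finset.card_add_card_compl Z
      rw [Finset.card_univ]
      have h2 : Zᶜ.card = Y.card := rfl
      show Fintype.card V ≤ 8 * k + 3 + k + s
      omega
    · intro F hF _
      obtain ⟨n, hn, c, hcinj, hadj, hFe⟩ := hF
      exact ⟨c 0, Finset.mem_univ _, (on_cyc hFe _).2 ⟨0, rfl⟩⟩
  have hnotA : ∀ F : Finset (Sym2 V), IsCyc (⊤ : SimpleGraph V) F → F.card ≤ 4 →
      (∀ v, On v F → v ∈ Y) → Good (val γ F) := by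
    intro F hF hc hFY
    by_contra hng
    obtain ⟨v, hv, hvF⟩ := hshort F hF (Or.inl hng) hc
    exact (Finset.mem_compl.1 (hFY v hvF)) hv
  have hl : Loc Y γ := by
    refine ⟨hY4, ?_, ?_⟩
    · intro a ha b hb c hc hab hbc hca
      rw [← val_tri hab hbc hca γ]
      apply hnotA _ (isCyc_tri hab hbc hca)
      · exact (Finset.card_le_three).trans (by norm_num)
      · rintro v ⟨e, he, hv⟩
        simp only [Finset.mem_insert, Finset.mem_singleton] at he
        rcases he with rfl | rfl | rfl <;> rcases Sym2.mem_iff.1 hv with rfl | rfl <;> assumption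
    · intro a ha b hb c hc d hd hab hbc hcd hda hac hbd
      rw [← val_quad hab hbc hcd hda hac hbd γ]
      apply hnotA _ (isCyc_quad hab hbc hcd hda hac hbd)
      · exact Finset.card_le_four
      · rintro v ⟨e, he, hv⟩
        simp only [Finset.mem_insert, Finset.mem_singleton] at he
        rcases he with rfl | rfl | rfl | rfl <;> rcases Sym2.mem_iff.1 hv with rfl | rfl <;>
          assumption
  rcases hl.dichotomy hs k with ⟨P, hPc, hPA, hPv⟩ | ⟨H, hHc, hH⟩
  · left
    exact ⟨P, hPc, fun F hF => ⟨(hPA F hF).1.1, (hPA F hF).2⟩, fun v => by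
      have := hPv v
      omega⟩
  · right
    refine ⟨Z ∪ H, ?_, ?_⟩
    · have h1 := Finset.card_union_le Z H
      show (Z ∪ H).card ≤ 8 * k + 3 + k + s
      omega
    · intro F hF hA
      by_cases hFY : ∀ v, On v F → v ∈ Y
      · obtain ⟨v, hv, hvF⟩ := hH F ⟨hF, hFY⟩ hA
        exact ⟨v, Finset.mem_union_right _ hv, hvF⟩
      · push Not at hFY
        obtain ⟨v, hvF, hv⟩ := hFY
        refine ⟨v, Finset.mem_union_left _ ?_, hvF⟩
        by_contra h
        exact hv (Finset.mem_compl.2 h)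

end Pool.Agent.Helper46.FG
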