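import Pool.Agent.Helper46.FG.Design

/-!
# `EP_(s+1)` holds for the labellings of complete graphs
-/

namespace Pool.Agent.Helper46.FG

open Finset

theorem ind_inj' {F F' : Finset (Sym2 Nm)} (h : ind F = ind F') : F = F' := by
  ext e
  have h1 : ind F e = ind F' e := by rw [h]
  rw [ind_apply, ind_apply] at h1
  split_ifs at h1 with h2 h3 h3
  · exact ⟨fun _ => h3, fun _ => h2⟩
  · exact absurd h1 one_ne_zero
  · exact absurd h1 zero_ne_one
  · exact ⟨fun h => absurd h h2, fun h => absurd h h3⟩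

/-- The handshake lemma for 0-1 vectors without diagonal entries. -/
theorem handshake {p : Gam} (hd : ∀ e, e.IsDiag → p e = 0) :
    ∃ W : Finset Nm, (∀ v, dg v p ≠ 0 → v ∈ W) ∧ ∑ v ∈ W, dg v p = 2 * ∑ e ∈ p.support, p e := by
  classical
  refine ⟨p.support.biUnion (fun e => e.toFinset), ?_, ?_⟩
  · intro v hv
    unfold dg Finsupp.sum at hv
    obtain ⟨e, he, hne⟩ := Finset.exists_ne_zero_of_sum_ne_zero hv
    refine Finset.mem_biUnion.2 ⟨e, he, ?_⟩
    rw [Sym2.mem_toFinset]
    by_contra h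
    apply hne
    show (if v ∈ e then p e else 0) = 0
    rw [if_neg h]
  · unfold dg Finsupp.sum
    rw [Finset.sum_comm, Finset.mul_sum]
    apply Finset.sum_congr rfl
    intro e he
    rw [← Finset.sum_filter, Finset.sum_const]
    have h1 : (p.support.biUnion (fun e => e.toFinset)).filter (fun v => v ∈ e) = e.toFinset := by
      ext v
      rw [Finset.mem_filter, Finset.mem_biUnion, Sym2.mem_toFinset]
      constructor
      · exact fun h => h.2
      · intro h
        exact ⟨⟨e, he, by rw [Sym2.mem_toFinset]; exact h⟩, h⟩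
    rw [h1]
    have h2 : ¬ e.IsDiag := by
      intro h
      exact (Finsupp.mem_support_iff.1 he) (hd e h)
    rw [Sym2.card_toFinset_of_not_isDiag _ h2]
    simp

section Main

variable {V : Type} [Fintype V] [DecidableEq V] {s : ℕ} {Y : Finset V} {γ : Sym2 V → Gam}

/-- `F` is the edge set of a cycle with all its vertices in `Y`. -/
def In (Y : Finset V) (F : Finset (Sym2 V)) : Prop :=
  IsCyc (⊤ : SimpleGraph V) F ∧ ∀ v, On v F → v ∈ Y

/-- All triangles and 4-cycles in `Y` have good values. -/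
structure Loc (Y : Finset V) (γ : Sym2 V → Gam) : Prop where
  card : 4 ≤ Y.card
  tri : ∀ a ∈ Y, ∀ b ∈ Y, ∀ c ∈ Y, a ≠ b → b ≠ c → c ≠ a →
    Good (γ s(a, b) + γ s(b, c) + γ s(c, a))
  quad : ∀ a ∈ Y, ∀ b ∈ Y, ∀ c ∈ Y, ∀ d ∈ Y, a ≠ b → b ≠ c → c ≠ d → d ≠ a → a ≠ c → b ≠ d →
    Good (γ s(a, b) + γ s(b, c) + γ s(c, d) + γ s(d, a))

theorem Loc.short_one (hl : Loc Y γ) (e : Sym2 Nm) : Short Y (fun f => γ f e) 1 := by
  constructor
  · intro a ha b hb c hc hab hbc hca
    have := (hl.tri a ha b hb c hc hab hbc hca).entry e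
    simpa using this
  · intro a ha b hb c hc d hd hab hbc hcd hda hac hbd
    have := (hl.quad a ha b hb c hc d hd hab hbc hcd hda hac hbd).entry e
    simpa using this

theorem Loc.short_two (hl : Loc Y γ) (v : Nm) : Short Y (fun f => dg v (γ f)) 2 := by
  constructor
  · intro a ha b hb c hc hab hbc hca
    have := (hl.tri a ha b hb c hc hab hbc hca).deg v
    rw [dg_add, dg_add] at this
    exact this
  · intro a ha b hb c hc d hd hab hbc hcd hda hac hbd
    have := (hl.quad a ha b hb c hc d hd hab hbc hcd hda hac hbd).deg v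
    rw [dg_add, dg_add, dg_add] at this
    exact this

theorem Loc.entry (hl : Loc Y γ) {a b : V} (ha : a ∈ Y) (hb : b ∈ Y) (hab : a ≠ b) (e : Sym2 Nm) :
    γ s(a, b) e = 0 ∨ γ s(a, b) e = 1 :=
  (hl.short_one e).entry hl.card ha hb hab

theorem Loc.nonneg (hl : Loc Y γ) {a b : V} (ha : a ∈ Y) (hb : b ∈ Y) (hab : a ≠ b) (v : Nm) :
    0 ≤ dg v (γ s(a, b)) := by
  unfold dg Finsupp.sum
  apply Finset.sum_nonneg
  intro e _
  show 0 ≤ (if v ∈ e then (γ s(a, b)) e else 0)
  split_ifs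
  · rcases hl.entry ha hb hab e with h | h <;> omega
  · exact le_rfl

theorem Loc.diag (hl : Loc Y γ) {a b : V} (ha : a ∈ Y) (hb : b ∈ Y) (hab : a ≠ b) {e : Sym2 Nm}
    (he : e.IsDiag) : γ s(a, b) e = 0 := by
  obtain ⟨c, hc, d, hd, hcd, hca, hcb, hda, hdb⟩ := exists_two hl.card a b
  have h1 := (hl.tri a ha b hb c hc hab hcb.symm hca).diag e he
  simp only [Finsupp.add_apply] at h1
  have h2 := hl.entry ha hb hab e
  have h3 := hl.entry hb hc hcb.symm e
  have h4 := hl.entry hc ha hca e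
  omega

/-- Two edges of `Y` lie in a short cycle; hence all labels are in the same block. -/
theorem Loc.block (hl : Loc Y γ) {a b c d : V} (ha : a ∈ Y) (hb : b ∈ Y) (hab : a ≠ b)
    (hc : c ∈ Y) (hd : d ∈ Y) (hcd : c ≠ d) {e e' : Sym2 Nm} (h1 : γ s(a, b) e ≠ 0)
    (h2 : γ s(c, d) e' ≠ 0) : ∀ u ∈ e, ∀ v ∈ e', u.1 = v.1 := by
  -- adjacent edges
  have key : ∀ a ∈ Y, ∀ b ∈ Y, ∀ c ∈ Y, a ≠ b → b ≠ c → c ≠ a → ∀ e e', γ s(a, b) e ≠ 0 →
      (γ s(b, c) e' ≠ 0 ∨ γ s(a, b) e' ≠ 0) → ∀ u ∈ e, ∀ v ∈ e', u.1 = v.1 := by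
    intro a ha b hb c hc hab hbc hca e e' h1 h2
    have h3 := hl.tri a ha b hb c hc hab hbc hca
    have pos : ∀ e, (γ s(a, b) e ≠ 0 ∨ γ s(b, c) e ≠ 0) →
        (γ s(a, b) + γ s(b, c) + γ s(c, a)) e ≠ 0 := by
      intro e he
      simp only [Finsupp.add_apply]
      have h4 := hl.entry ha hb hab e
      have h5 := hl.entry hb hc hbc e
      have h6 := hl.entry hc ha hca e
      omega
    exact h3.block e e' (pos e (Or.inl h1)) (pos e' h2.symm)
  by_cases hac : a = c
  · subst hac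
    by_cases hbd : b = d
    · subst hbd
      obtain ⟨x, hx, y, hy, hxy, hxa, hxb, _, _⟩ := exists_two hl.card a b
      exact key a ha b hb x hx hab hxb.symm hxa e e' h1 (Or.inr h2)
    · exact key b hb a ha d hd hab.symm hcd (Ne.symm hbd) e e'
        (by rw [Sym2.eq_swap]; exact h1) (Or.inl h2)
  by_cases hbc : b = c
  · subst hbc
    by_cases had : a = d
    · subst had
      obtain ⟨x, hx, y, hy, hxy, hxa, hxb, _, _⟩ := exists_two hl.card a b
      exact key a ha b hb x hx hab hxb.symm hxa e e' h1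
        (Or.inr (by rw [Sym2.eq_swap]; exact h2))
    · exact key a ha b hb d hd hab hcd (Ne.symm had) e e' h1 (Or.inl h2)
  by_cases had : a = d
  · subst had
    exact key b hb a ha c hc hab.symm hac (Ne.symm hbc) e e' (by rw [Sym2.eq_swap]; exact h1)
      (Or.inl (by rw [Sym2.eq_swap]; exact h2))
  by_cases hbd : b = d
  · subst hbd
    exact key a ha b hb c hc hab hbc (Ne.symm hac) e e' h1
      (Or.inl (by rw [Sym2.eq_swap]; exact h2))
  have h3 := hl.quad a ha b hb c hc d hd hab hbc hcd (Ne.symm had) hac hbd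
  have pos : ∀ e, (γ s(a, b) e ≠ 0 ∨ γ s(c, d) e ≠ 0) →
      (γ s(a, b) + γ s(b, c) + γ s(c, d) + γ s(d, a)) e ≠ 0 := by
    intro e he
    simp only [Finsupp.add_apply]
    have h4 := hl.entry ha hb hab e
    have h5 := hl.entry hb hc hbc e
    have h6 := hl.entry hc hd hcd e
    have h7 := hl.entry hd ha (Ne.symm had) e
    omega
  exact h3.block e e' (pos e (Or.inl h1)) (pos e' (Or.inr h2))

/-- Working with a parametrized cycle in `Y`. -/
theorem In.param {F : Finset (Sym2 V)} (hF : In Y F) : ∃ n : ℕ, 3 ≤ n ∧ ∃ c : ZMod n → V,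
    Function.Injective c ∧ (∀ i, c i ∈ Y) ∧ (∀ i, c i ≠ c (i + 1)) ∧
    ∀ e, e ∈ F ↔ ∃ i, e = s(c i, c (i + 1)) := by
  obtain ⟨⟨n, hn, c, hc, hadj, hFe⟩, hY⟩ := hF
  refine ⟨n, hn, c, hc, ?_, ?_, hFe⟩
  · intro i
    exact hY _ ((on_cyc hFe _).2 ⟨i, rfl⟩)
  · intro i
    exact hadj i

theorem val_apply (F : Finset (Sym2 V)) (e : Sym2 Nm) : (val γ F) e = ∑ f ∈ F, γ f e := by
  unfold val
  rw [Finsupp.finsetSum_apply]

/-- A nonzero coordinate of the value comes from an edge. -/
theorem exists_edge {F : Finset (Sym2 V)} {e : Sym2 Nm} (h : (val γ F) e ≠ 0) :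
    ∃ f ∈ F, γ f e ≠ 0 := by
  rw [val_apply] at h
  exact Finset.exists_ne_zero_of_sum_ne_zero h

theorem Loc.edge_ne (hl : Loc Y γ) {F : Finset (Sym2 V)} (hF : In Y F) {f : Sym2 V} (hf : f ∈ F)
    {e : Sym2 Nm} (he : γ f e ≠ 0) : (val γ F) e ≠ 0 := by
  obtain ⟨n, hn, c, hc, hcY, hne, hFe⟩ := hF.param
  rw [val_apply]
  have h1 : (0 : ℤ) < ∑ f ∈ F, γ f e := by
    apply Finset.sum_pos'
    · intro g hg
      obtain ⟨i, rfl⟩ := (hFe g).1 hg
      rcases hl.entry (hcY i) (hcY (i + 1)) (hne i) e with h | h <;> omega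
    · refine ⟨f, hf, ?_⟩
      obtain ⟨i, rfl⟩ := (hFe f).1 hf
      rcases hl.entry (hcY i) (hcY (i + 1)) (hne i) e with h | h
      · exact absurd h he
      · omega
  exact h1.ne'

/-- All cycles in `Y` have good values. -/
theorem Loc.good (hl : Loc Y γ) {F : Finset (Sym2 V)} (hF : In Y F) : Good (val γ F) := by
  obtain ⟨n, hn, c, hc, hcY, hne, hFe⟩ := hF.param
  haveI : NeZero n := ⟨by omega⟩
  refine ⟨?_, ?_, ?_, ?_⟩
  · intro e
    rw [val_apply, sum_cyc hn hc hFe (fun f => γ f e)]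
    exact (hl.short_one e).sum_one hl.card hn hc hcY
  · intro e he
    rw [val_apply]
    apply Finset.sum_eq_zero
    intro f hf
    obtain ⟨i, rfl⟩ := (hFe f).1 hf
    exact hl.diag (hcY i) (hcY _) (hne i) he
  · intro v
    have h1 : dg v (val γ F) = ∑ i : ZMod n, dg v (γ s(c i, c (i + 1))) := by
      unfold val
      rw [dg_sum, sum_cyc hn hc hFe (fun f => dg v (γ f))]
    rw [h1]
    rcases (hl.short_two v).classify hl.card (fun a ha b hb hab => hl.nonneg ha hb hab v) with
      h2 | ⟨a, ha, b, hb, hab, h2, h3⟩ | ⟨a, ha, h2, h3⟩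
    · left
      exact Finset.sum_eq_zero (fun i _ => h2 _ (hcY i) _ (hcY _) (hne i))
    · by_cases h4 : ∃ i, s(c i, c (i + 1)) = s(a, b)
      · right
        obtain ⟨i, hi⟩ := h4
        rw [Finset.sum_eq_single i]
        · rw [hi]; exact h2
        · intro j _ hji
          apply h3 _ (hcY j) _ (hcY _) (hne j)
          intro h5
          exact hji (edge_inj hn hc (h5.trans hi.symm))
        · intro h; exact absurd (Finset.mem_univ i) h
      · left
        push Not at h4
        exact Finset.sum_eq_zero (fun i _ => h3 _ (hcY i) _ (hcY _) (hne i) (h4 i))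
    · have h4 : ∀ i : ZMod n, dg v (γ s(c i, c (i + 1))) =
          if a ∈ s(c i, c (i + 1)) then (1 : ℤ) else 0 := by
        intro i
        by_cases h5 : a ∈ s(c i, c (i + 1))
        · rw [if_pos h5]
          rcases Sym2.mem_iff.1 h5 with h6 | h6
          · rw [← h6]
            exact h2 _ (hcY _) (by rw [h6]; exact (hne i).symm)
          · rw [← h6, Sym2.eq_swap]
            exact h2 _ (hcY _) (by rw [h6]; exact hne i)
        · rw [if_neg h5]
          rw [Sym2.mem_iff, not_or] at h5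
          exact h3 _ (hcY i) _ (hcY _) (hne i) (Ne.symm h5.1) (Ne.symm h5.2)
      rw [Finset.sum_congr rfl (fun i _ => h4 i)]
      by_cases h5 : ∃ j, a = c j
      · obtain ⟨j, rfl⟩ := h5
        exact Or.inr (sum_star hn hc j)
      · push Not at h5
        exact Or.inl (sum_star_zero h5)
  · intro e e' he he'
    obtain ⟨f, hf, hfe⟩ := exists_edge he
    obtain ⟨f', hf', hfe'⟩ := exists_edge he'
    obtain ⟨i, rfl⟩ := (hFe f).1 hf
    obtain ⟨j, rfl⟩ := (hFe f').1 hf'
    exact hl.block (hcY i) (hcY _) (hne i) (hcY j) (hcY _) (hne j) hfe hfe'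

/-- `v` is a name of the vertex `a`. -/
def Star (Y : Finset V) (γ : Sym2 V → Gam) (v : Nm) (a : V) : Prop :=
  (∀ b ∈ Y, b ≠ a → dg v (γ s(a, b)) = 1) ∧
    ∀ b ∈ Y, ∀ c ∈ Y, b ≠ c → b ≠ a → c ≠ a → dg v (γ s(b, c)) = 0

theorem Star.ne {v : Nm} {a : V} (hst : Star Y γ v a) {F : Finset (Sym2 V)} (hF : In Y F) :
    dg v (val γ F) ≠ 0 ↔ On a F := by
  obtain ⟨n, hn, c, hc, hcY, hne, hFe⟩ := hF.param
  haveI : NeZero n := ⟨by omega⟩
  have h1 : dg v (val γ F) = ∑ i : ZMod n, dg v (γ s(c i, c (i + 1))) := by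
    unfold val
    rw [dg_sum, sum_cyc hn hc hFe (fun f => dg v (γ f))]
  have h4 : ∀ i : ZMod n, dg v (γ s(c i, c (i + 1))) =
      if a ∈ s(c i, c (i + 1)) then (1 : ℤ) else 0 := by
    intro i
    by_cases h5 : a ∈ s(c i, c (i + 1))
    · rw [if_pos h5]
      rcases Sym2.mem_iff.1 h5 with h6 | h6
      · rw [← h6]
        exact hst.1 _ (hcY _) (by rw [h6]; exact (hne i).symm)
      · rw [← h6, Sym2.eq_swap]
        exact hst.1 _ (hcY _) (by rw [h6]; exact hne i)
    · rw [if_neg h5]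
      rw [Sym2.mem_iff, not_or] at h5
      exact hst.2 _ (hcY i) _ (hcY _) (hne i) (Ne.symm h5.1) (Ne.symm h5.2)
  rw [h1, Finset.sum_congr rfl (fun i _ => h4 i), on_cyc hFe]
  by_cases h5 : ∃ j, a = c j
  · obtain ⟨j, rfl⟩ := h5
    rw [sum_star hn hc j]
    exact ⟨fun _ => ⟨j, rfl⟩, fun _ => by norm_num⟩
  · have h6 := h5
    push Not at h6
    rw [sum_star_zero h6]
    exact ⟨fun h => absurd rfl h, fun h => absurd h h5⟩

/-- If cycles with the values of the designated cycles `(N, i)`, `i ∈ T`, `|T| = s`, exist in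
`Y`, then every vertex of `Y` has a name. -/
theorem Loc.named (hl : Loc Y γ) (hs : 2 ≤ s) {N : ℕ} {T : Finset ℕ} (hT : T ⊆ range N)
    (hTc : T.card = s) {Fc : ℕ → Finset (Sym2 V)} (hFY : ∀ i ∈ T, In Y (Fc i))
    (hFv : ∀ i ∈ T, val γ (Fc i) = ind (Dc s N i)) (x : V) (hx : x ∈ Y) :
    ∃ v, Star Y γ v x := by
  set v : Nm := (N, Sum.inl T) with hv
  have hdv : ∀ i ∈ T, dg v (val γ (Fc i)) ≠ 0 := by
    intro i hi
    rw [hFv i hi, dg_ind_ne]
    exact on_Dc_inl hT hTc hi
  obtain ⟨i0, hi0, i1, hi1, hi01⟩ := Finset.one_lt_card.1 (show 1 < T.card by omega)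
  rcases (hl.short_two v).classify hl.card (fun a ha b hb hab => hl.nonneg ha hb hab v) with
    h2 | ⟨a, ha, b, hb, hab, h2, h3⟩ | ⟨a, ha, h2, h3⟩
  · exfalso
    apply hdv i0 hi0
    obtain ⟨n, hn, c, hc, hcY, hne, hFe⟩ := (hFY i0 hi0).param
    unfold val
    rw [dg_sum]
    apply Finset.sum_eq_zero
    intro f hf
    obtain ⟨i, rfl⟩ := (hFe f).1 hf
    exact h2 _ (hcY i) _ (hcY _) (hne i)
  · exfalso
    -- the edge `ab` is on both cycles
    have hon : ∀ i ∈ T, s(a, b) ∈ Fc i := by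
      intro i hi
      by_contra hno
      apply hdv i hi
      obtain ⟨n, hn, c, hc, hcY, hne, hFe⟩ := (hFY i hi).param
      unfold val
      rw [dg_sum]
      apply Finset.sum_eq_zero
      intro f hf
      obtain ⟨j, rfl⟩ := (hFe f).1 hf
      apply h3 _ (hcY j) _ (hcY _) (hne j)
      intro h4
      rw [h4] at hf
      exact hno hf
    have h4 : dg v (γ s(a, b)) ≠ 0 := by
      have : dg v (γ s(a, b)) = 2 := h2
      omega
    unfold dg Finsupp.sum at h4
    obtain ⟨e, he, _⟩ := Finset.exists_ne_zero_of_sum_ne_zero h4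
    rw [Finsupp.mem_support_iff] at he
    have h5 : ∀ i ∈ T, e ∈ Dc s N i := by
      intro i hi
      have h6 := hl.edge_ne (hFY i hi) (hon i hi) he
      rw [hFv i hi, ind_apply] at h6
      by_contra h7
      rw [if_neg h7] at h6
      exact h6 rfl
    exact hi01 (Dc_disj (h5 i0 hi0) (h5 i1 hi1)).2
  · have hsta : Star Y γ v a := ⟨fun b hb hba => h2 b hb hba, h3⟩
    by_cases hxa : x = a
    · exact ⟨v, by rw [hxa]; exact hsta⟩
    · by_contra hno
      push Not at hno
      -- `v` is the only name of `a`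
      have huniq : ∀ w, Star Y γ w a → w = v := by
        intro w hw
        apply eq_inl hs hTc
        intro i hi
        rw [← dg_ind_ne, ← hFv i hi, hw.ne (hFY i hi), ← hsta.ne (hFY i hi)]
        exact hdv i hi
      -- handshake for the label of the edge `ax`
      obtain ⟨W, hW1, hW2⟩ := handshake (p := γ s(a, x))
        (fun e he => hl.diag ha hx (Ne.symm hxa) he)
      have hv1 : dg v (γ s(a, x)) = 1 := h2 x hx hxa
      have hvW : v ∈ W := hW1 v (by rw [hv1]; norm_num)
      have heven : ∀ w, w ≠ v → Even (dg w (γ s(a, x))) := by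
        intro w hw
        rcases (hl.short_two w).classify hl.card
            (fun a ha b hb hab => hl.nonneg ha hb hab w) with
          h4 | ⟨a', ha', b', hb', hab', h4, h5⟩ | ⟨a', ha', h4, h5⟩
        · have h6 : dg w (γ s(a, x)) = 0 := h4 a ha x hx (Ne.symm hxa)
          rw [h6]; exact Even.zero
        · by_cases h6 : s(a, x) = s(a', b')
          · have h7 : dg w (γ s(a, x)) = 2 := by rw [h6]; exact h4
            rw [h7]; exact even_two
          · have h7 : dg w (γ s(a, x)) = 0 := h5 a ha x hx (Ne.symm hxa) h6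
            rw [h7]; exact Even.zero
        · have hst' : Star Y γ w a' := ⟨fun b hb hba => h4 b hb hba, h5⟩
          by_cases h6 : a' = a
          · rw [h6] at hst'
            exact absurd (huniq w hst') hw
          · by_cases h7 : a' = x
            · rw [h7] at hst'
              exact absurd hst' (hno w)
            · have h8 : dg w (γ s(a, x)) = 0 :=
                h5 a ha x hx (Ne.symm hxa) (Ne.symm h6) (Ne.symm h7)
              rw [h8]; exact Even.zero
      have h9 : Even (∑ w ∈ W, dg w (γ s(a, x))) := by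
        rw [hW2]; exact even_two_mul _
      rw [← Finset.add_sum_erase W _ hvW, hv1] at h9
      have h10 : Even (∑ w ∈ W.erase v, dg w (γ s(a, x))) := by
        apply Finset.even_sum
        intro w hw
        exact heven w (Finset.mem_erase.1 hw).1
      rw [Int.even_add] at h9
      exact absurd (h9.2 h10) (by decide)

end Main

end Pool.Agent.Helper46.FG
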